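import Pool.Agent.N343.SA.Defs
import Pool.Agent.N343.SA.Final

set_option autoImplicit false

/-!
# MP_aa036a_co: counting the permutations that strongly avoid 321 and 1342

Idea. Let `π` be such a permutation of length `n ≥ 3`. Then either `π (n) = n`, or `π` ends in
`n, n - 1`, or `π` is one of the `n - 1` nontrivial rotations `i ↦ i + k mod n`; conversely all
these are strongly avoiding when the permutation with the last one (two) entries removed is. So
`a (n) = a (n-1) + a (n-2) + (n-1)`.
-/

namespace Pool.Agent.Results.MP_aa036a_co.StrongAvoiders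

open Pool.Agent.N343.SA

/-- The number of the permutations of length `n` that strongly avoid 321 and 1342 is
`2 F_{n+2} - n - 2`, for all `n ≥ 1`. -/
theorem result : ∀ n : ℕ, 1 ≤ n →
    (Nat.card {π : Equiv.Perm (Fin n) //
      StronglyAvoids ![3, 2, 1] π ∧ StronglyAvoids ![1, 3, 4, 2] π} : ℤ) =
      2 * Nat.fib (n + 2) - n - 2 :=
  fun n hn => main n hn

end Pool.Agent.Results.MP_aa036a_co.StrongAvoiders
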